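import Pool.Agent.Helper28.OHS.Goals
import Pool.Agent.Helper24.OH2.CROSS2
import Pool.Agent.Helper65.OH.Main

/-!
# Packet OHS-WIN (MP_c578c8_lc): a part of a computation, shift of the grid and macro run
-/

namespace Pool.Agent.Helper5.OHS

open Pool.Agent.Helper65.LinSpace Pool.Agent.Helper78.Mpc Pool.Agent.Helper28.Ram Finset
open Pool.Agent.Helper65.OH (Prm OneHead Conf Par InBox co bz GoodQ Fns co_step)
open Pool.Agent.Helper28.Few (mcf chs Absorb macro_complete)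
open Pool.Agent.Helper28.OHS

theorem win (hCUB : CUB_stmt) (hCMP : CMP_stmt) : WIN_stmt := by
  classical
  intro D A eA eN eW c₀ w y m e hP hF hsg c d τ t₀ x h T hc hfit hbox hna hV hd0 hd1 hx hτ hT
  obtain ⟨o, ho, hX⟩ := Pool.Agent.Helper24.OH2.CROSS2 D τ m.d (2 ^ h)
    (fun i => A.New w y (t₀ + i)) (fun i k => co m.κ (A.conf w y (t₀ + i)).h k) hP.pos_d
    (fun t _ k _ => co_step A w y m.κ (t₀ + t) k)
  have hN : ((range τ).filter fun i => A.New w y (t₀ + i)).card ≤ x := by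
    refine le_trans ?_ hx
    unfold steps
    have hfin : {u : ℕ | t₀ ≤ u ∧ u < t₀ + τ ∧ A.New w y u}.Finite :=
      (Set.finite_lt_nat (t₀ + τ)).subset fun u hu => hu.2.1
    have h1 : (((range τ).filter fun i => A.New w y (t₀ + i)).image fun i => t₀ + i).card =
        ((range τ).filter fun i => A.New w y (t₀ + i)).card :=
      card_image_of_injective _ (add_right_injective t₀)
    rw [← h1, ← Set.ncard_coe_finset]
    refine Set.ncard_le_ncard ?_ hfin
    intro u hu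
    simp only [coe_image, coe_filter, mem_range, Set.mem_image, Set.mem_setOf_eq] at hu ⊢
    obtain ⟨i, ⟨hi, hi2⟩, rfl⟩ := hu
    exact ⟨by omega, by omega, hi2⟩
  have hZ : ((range τ).filter fun t => A.New w y (t₀ + t) ∧
      ∃ k < D, (co m.κ (A.conf w y (t₀ + t)).h k + o) / m.d ≠
        (co m.κ (A.conf w y (t₀ + (t + 1))).h k + o) / m.d).card =
      ncr A w y (sh m o) t₀ τ := by
    unfold ncr
    congr 1
    ext i
    simp only [mem_filter, mem_range, Cr, sh, add_assoc]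
  have hR : ((range τ).filter fun t =>
      ∃ k < D, (co m.κ (A.conf w y (t₀ + t)).h k + o) / m.d ≠
        (co m.κ (A.conf w y (t₀ + (t + 1))).h k + o) / m.d).card =
      crs A w y (sh m o) t₀ τ := by
    unfold crs
    congr 1
    ext i
    simp only [mem_filter, mem_range, Cr, sh, add_assoc]
  have hX' : m.d * (2 ^ h * ncr A w y (sh m o) t₀ τ + crs A w y (sh m o) t₀ τ) ≤
      D * (2 ^ h * ((range τ).filter fun i => A.New w y (t₀ + i)).card + τ) := by
    rw [← hZ, ← hR]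
    convert hX using 2
  generalize hZe : ncr A w y (sh m o) t₀ τ = Z at hX'
  generalize hRe : crs A w y (sh m o) t₀ τ = R at hX'
  have hpow : 0 < 2 ^ h := by positivity
  have h1 : m.d * (Z + R / 2 ^ h) ≤ D * (2 * x + 1) := by
    refine le_of_mul_le_mul_left (a := 2 ^ h) ?_ hpow
    calc 2 ^ h * (m.d * (Z + R / 2 ^ h)) = m.d * (2 ^ h * Z + 2 ^ h * (R / 2 ^ h)) := by ring
      _ ≤ m.d * (2 ^ h * Z + R) := Nat.mul_le_mul_left _ (by
          have := Nat.mul_div_le R (2 ^ h)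
          omega)
      _ ≤ D * (2 ^ h * ((range τ).filter fun i => A.New w y (t₀ + i)).card + τ) := hX'
      _ ≤ D * (2 ^ h * x + 2 ^ h * (x + 1)) :=
          Nat.mul_le_mul_left _ (add_le_add (Nat.mul_le_mul_left _ hN) hτ)
      _ = 2 ^ h * (D * (2 * x + 1)) := by ring
  have h2 : 2 * (Z + R / 2 ^ h + 1) + 1 ≤ T := by
    refine le_of_mul_le_mul_left (a := m.d) ?_ hP.pos_d
    calc m.d * (2 * (Z + R / 2 ^ h + 1) + 1) = 2 * (m.d * (Z + R / 2 ^ h)) + 3 * m.d := by ring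
      _ ≤ 2 * (D * (2 * x + 1)) + 3 * m.d := Nat.add_le_add_right (Nat.mul_le_mul_left 2 h1) _
      _ = 2 * D * (2 * x + 1) + 3 * m.d := by ring
      _ ≤ _ := hT
  have h3 : R + 2 ≤ 2 ^ h * (Z + R / 2 ^ h + 1 + 1) := by
    have e1 : R < 2 ^ h * (R / 2 ^ h) + 2 ^ h := by
      have := Nat.div_add_mod R (2 ^ h)
      have := Nat.mod_lt R hpow
      omega
    have e2 : 2 ^ h * (Z + R / 2 ^ h + 1 + 1) =
        2 ^ h * Z + (2 ^ h * (R / 2 ^ h) + 2 ^ h) + 2 ^ h := by ring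
    omega
  have hP' : Par A eA eN eW c₀ w y (sh m o) :=
    ⟨hP.h_eA, hP.h_eN, hP.h_eW, hP.h_st, hP.h_x, hP.h_y, hP.h_D, hP.pos_D, hP.pos_κ, hP.pos_d,
      hP.h_σ, hP.h_a, hP.h_Λ, hP.h_β, hP.h_B⟩
  have hF' : Fns A (sh m o) := ⟨hF.addr, hF.next, hF.write⟩
  have hrep : ∀ {c : ℕ} {C : Conf D}, Rep m e c C → Rep (sh m o) e c C := fun hc =>
    ⟨hc.ne, ⟨hc.good.lt, hc.good.wq, hc.good.len, hc.good.cq⟩, hc.ct⟩
  refine ⟨o, ho, fun a ha => ?_⟩
  obtain ⟨g1, g2, g3⟩ := hCMP A eA eN eW c₀ w y (sh m o) e hP' ho hF' hsg c d a τ t₀ (hrep hc)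
    hfit hbox hna hV hd0 (fun hd => ⟨(hrep (hd1 hd)).good, by
      rcases Nat.eq_zero_or_pos a with ha0 | ha0
      · exact Or.inl ha0
      · rcases ha with ha | ⟨-, ha⟩
        · exact Or.inl ha
        · right
          obtain ⟨p, hp1, hp2⟩ := hCUB.surj m (a - 1) hP.h_D hP.pos_κ (by omega)
          refine ⟨p, hp1, ?_, (hrep (hd1 hd)).ct p hp1⟩
          show a = cd m p + 1
          omega⟩)
  rw [hRe, hZe] at g3
  rw [hRe] at g2
  exact macro_complete g1 g2 (g3.trans (Nat.add_le_add_right (Nat.le_add_right _ _) 1))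
    (Or.inl h3) T h2

end Pool.Agent.Helper5.OHS
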